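import Pool.Agent.Lib.MP_186ff7_lc.PCP.All
import Pool.Agent.Lib.MP_186ff7_lc.Greedy
import Pool.Agent.Lib.MP_186ff7_lc.Lattice
import Pool.Agent.Lib.MP_186ff7_lc.Gadget
import Pool.Agent.Lib.MP_186ff7_lc.Cnt.Asm
import Pool.Agent.Lib.MP_186ff7_lc.Cnt.Sim
import Pool.Agent.Lib.MP_186ff7_lc.Cnt.Cnt
import Pool.Agent.Lib.MP_186ff7_lc.Cnt.Trans
import Pool.Agent.Lib.MP_186ff7_lc.Cnt.Dag
import Pool.Agent.Lib.MP_186ff7_lc.Cnt.DagAbs
import Pool.Agent.Lib.MP_186ff7_lc.Cnt.Cater
import Pool.Agent.Lib.MP_186ff7_lc.Cnt.RoomW
import Pool.Agent.Lib.MP_186ff7_lc.Cnt.MarrW

/-!
# MP_186ff7_lc: reductions from solvable stable roommates to stable marriage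

FP = #P implies that a reduction with correspondence exists; the first component of a reduction is a
polynomial-time map that preserves the number of stable matchings; and such a map implies P = NP.

* The stable matchings of an explicit roommates instance with four agents for every vertex are the
  independent sets of the graph (`Gadget.lean`, `Rooms.lean`), and the logarithm of their number is
  between the independence number and its product with a logarithm.
* The logarithm of the number of stable matchings of a marriage instance is approximated in
  polynomial time by the size of a greedy chain cover of the set of join-irreducible stable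
  matchings (`Lattice.lean`, `Greedy.lean`, `Marr.lean`).
* So the independence number is approximated within a polylogarithmic factor, and this implies
  P = NP. The proof of this classical consequence of the PCP theorem is in the folder `PCP` (gap
  amplification by powering on expanders, long codes, random walks on the constraints).
* Conversely, if FP = #P, then the stable matchings of a solvable roommates instance can be ranked
  and unranked in polynomial time, and there are explicit marriage instances with any given number
  of stable matchings (folder `Cnt`).
* All algorithms run in polynomial time on the Turing machines of Mathlib.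
-/

namespace Pool.Agent.Results.MP_186ff7_lc.Sandwich

open Pool.Agent.Lib.MP_186ff7_lc

/-- **Main result.** FP = #P implies that there is a reduction with correspondence from solvable
stable roommates to stable marriage; if there is such a reduction, then there is a polynomial-time
map that preserves the number of stable matchings; and if there is such a map, then P = NP. -/
theorem result : (Cnt.FPeqSharpP → Nonempty Reduction) ∧
    (Nonempty Reduction → CountPreservingMap) ∧ (CountPreservingMap → PCP.PeqNP) := by
  refine ⟨?_, ?_, ?_⟩
  · exact Cnt.converse (Cnt.cnt Cnt.sim) (Cnt.trans Cnt.bin) (Cnt.dag Cnt.dagAbs) Cnt.cater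
      Cnt.marPT Cnt.roomW Cnt.marrW Cnt.wPT
  · rintro ⟨R⟩
    refine ⟨R.f, R.f_poly, fun I => ?_⟩
    exact Nat.card_congr ⟨R.g I, R.h I, R.left_inv I, R.right_inv I⟩
  · rintro ⟨f, hf, hcard⟩
    exact PCP.peqNP_of_polylog (main stGreedy stLattice stGadget stCount f hf hcard)

end Pool.Agent.Results.MP_186ff7_lc.Sandwich
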